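import Mathlib
import Pool.Agent.H759R2.Kad.Props5

open scoped ComplexOrder InnerProductSpace ComplexConjugate
open Finset

noncomputable section

namespace H759R2.Kad

universe u v

theorem prove5_class (h1 : F_pow.{u}) (h2 : F_dix.{u}) (h3 : F_orth.{u}) : F_class.{u} := by
  intro H _ _ _ M τ hM L₀
  obtain ⟨N, τ', hN, hiso⟩ := h1 H M τ hM L₀
  refine ⟨2 ^ L₀, (Nat.lt_two_pow_self).le, N.toStarSubalgebra, inferInstance,
    CStarAlgebra.spectralOrder _, CStarAlgebra.spectralOrderedRing _, τ', hN.trace,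
    h2 H N τ' hN.center hN.trace, h3 H N τ' hN, hiso⟩

end H759R2.Kad
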